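import Pool.Agent.MP_1246c0_nt.H12.SpecR

set_option autoImplicit false

/-! Crude bound for the probability of a system. -/

namespace Pool.Agent.MP_1246c0_nt.H12

open Finset

namespace CR

variable {Λ ι G : Type} [CommRing Λ] [Fintype ι] [DecidableEq ι] [AddCommGroup G] [Module Λ G]

/-- the rows in `B` of the matrix applied to `x` -/
def ph (B : Finset ι) (x : ι → G) : Matrix ι ι Λ →+ (ι → G) where
  toFun H l := if l ∈ B then ap H x l else 0
  map_zero' := by
    funext l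
    simp [ap]
  map_add' H H' := by
    funext l
    by_cases h : l ∈ B <;> simp [ap, h, add_smul, Finset.sum_add_distrib]

theorem ph_apply (B : Finset ι) (x : ι → G) (H : Matrix ι ι Λ) (l : ι) :
    ph B x H l = if l ∈ B then ap H x l else 0 := rfl

theorem mem_sp (x : ι → G) (J : Finset ι) (t : G) (ht : t ∈ sp Λ x J) :
    ∃ c : ι → Λ, (∀ l, l ∉ J → c l = 0) ∧ ∑ l, c l • x l = t := by
  unfold sp at ht
  induction ht using Submodule.span_induction with
  | mem t ht =>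
    obtain ⟨l, hl, rfl⟩ := ht
    refine ⟨Pi.single l 1, fun l' h => Pi.single_eq_of_ne (fun e => h (by rw [e]; exact hl)) _, ?_⟩
    simp [Pi.single_apply, ite_smul]
  | zero => exact ⟨0, fun _ _ => rfl, by simp⟩
  | add a b _ _ ha hb =>
    obtain ⟨c, h1, h2⟩ := ha
    obtain ⟨d, h3, h4⟩ := hb
    exact ⟨c + d, fun l h => by simp [h1 l h, h3 l h],
      by simp [add_smul, Finset.sum_add_distrib, h2, h4]⟩
  | smul r a _ ha =>
    obtain ⟨c, h1, h2⟩ := ha
    exact ⟨r • c, fun l h => by simp [h1 l h],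
      by simp [← h2, Finset.smul_sum, mul_smul]⟩

theorem reach (st : Λ →+* Λ) (hst : ∀ h, st (st h) = h) (B F L1 L2 : Finset ι) (x : ι → G)
    (hF : F ⊆ B) (h1 : L1 ⊆ F) (h2 : L2 ⊆ B) (t : ι → G)
    (ht : ∀ l ∈ B, l ∉ L1 ∪ L2 → t l ∈ sp Λ x (if l ∈ F then L2 else L1)) :
    ∃ H ∈ Hs st B F, ∀ l ∈ B, l ∉ L1 ∪ L2 → ap H x l = t l := by
  have h : ∀ l, ∃ c : ι → Λ, (∀ l', c l' ≠ 0 → l ∈ B ∧ l ∉ L1 ∪ L2 ∧ l' ∈ L1 ∪ L2 ∧ l' ∈ B ∧
      (l ∈ F ∨ l' ∈ F)) ∧ (l ∈ B → l ∉ L1 ∪ L2 → ∑ l', c l' • x l' = t l) := by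
    intro l
    by_cases hl : l ∈ B ∧ l ∉ L1 ∪ L2
    · obtain ⟨c, hc, hs⟩ := mem_sp x _ _ (ht l hl.1 hl.2)
      refine ⟨c, fun l' h0 => ?_, fun _ _ => hs⟩
      have h3 : l' ∈ (if l ∈ F then L2 else L1) := by_contra fun h4 => h0 (hc l' h4)
      by_cases hf : l ∈ F
      · rw [if_pos hf] at h3
        exact ⟨hl.1, hl.2, mem_union_right _ h3, h2 h3, Or.inl hf⟩
      · rw [if_neg hf] at h3
        exact ⟨hl.1, hl.2, mem_union_left _ h3, hF (h1 h3), Or.inr (h1 h3)⟩
    · exact ⟨0, fun l' h0 => absurd rfl h0, fun a b => absurd ⟨a, b⟩ hl⟩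
  choose c hc hs using h
  refine ⟨Matrix.of fun l l' => c l l' + st (c l' l), ⟨fun l l' => ?_, fun l => ⟨0, ?_⟩,
    fun l l' hn => ?_⟩, fun l hl hl' => ?_⟩
  · simp only [Matrix.of_apply, map_add, hst, add_comm]
  · have h3 : c l l = 0 := by_contra fun h0 => (hc l l h0).2.1 (hc l l h0).2.2.1
    simp [h3]
  · have h3 : c l l' = 0 := by_contra fun h0 =>
      hn ⟨(hc l l' h0).1, (hc l l' h0).2.2.2.1, (hc l l' h0).2.2.2.2⟩
    have h4 : c l' l = 0 := by_contra fun h0 =>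
      hn ⟨(hc l' l h0).2.2.2.1, (hc l' l h0).1, (hc l' l h0).2.2.2.2.symm⟩
    simp [h3, h4]
  · rw [← hs l hl hl']
    refine Finset.sum_congr rfl fun l' _ => ?_
    have h4 : c l' l = 0 := by_contra fun h0 => hl' (hc l' l h0).2.2.1
    simp [h4]

theorem card_ge [Finite G] (st : Λ →+* Λ) (hst : ∀ h, st (st h) = h) (B F L1 L2 : Finset ι)
    (x : ι → G) (hF : F ⊆ B) (h1 : L1 ⊆ F) (h2 : L2 ⊆ B) :
    Nat.card (sp Λ x L2) ^ F.card * Nat.card (sp Λ x L1) ^ (B \ F).card ≤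
      Nat.card ((Hs st B F).map (ph B x)) * Nat.card G ^ (L1 ∪ L2).card := by
  let U : ι → Submodule Λ G := fun l =>
    if l ∈ B ∧ l ∉ L1 ∪ L2 then sp Λ x (if l ∈ F then L2 else L1) else ⊥
  have h : ∀ t : ∀ l, U l, ∃ y : (Hs st B F).map (ph B x), ∀ l ∈ B, l ∉ L1 ∪ L2 →
      (y : ι → G) l = t l := by
    intro t
    obtain ⟨H, hH, hs⟩ := reach st hst B F L1 L2 x hF h1 h2 (fun l => t l) fun l a b => by
      have h3 := (t l).2
      simp only [U, if_pos (And.intro a b)] at h3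
      exact h3
    refine ⟨⟨ph B x H, H, hH, rfl⟩, fun l a b => ?_⟩
    change ph B x H l = _
    rw [ph_apply, if_pos a, hs l a b]
  choose f hf using h
  have hinj : Function.Injective f := by
    intro t t' e
    funext l
    refine Subtype.ext ?_
    by_cases hl : l ∈ B ∧ l ∉ L1 ∪ L2
    · rw [← hf t l hl.1 hl.2, ← hf t' l hl.1 hl.2, e]
    · have h3 := (t l).2
      have h4 := (t' l).2
      simp only [U, if_neg hl, Submodule.mem_bot] at h3 h4
      rw [h3, h4]
  have h3 := Nat.card_le_card_of_injective f hinj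
  rw [Nat.card_pi] at h3
  refine le_trans ?_ (Nat.mul_le_mul_right _ h3)
  rw [← Finset.prod_const, ← Finset.prod_const, ← Finset.prod_const,
    ← Finset.prod_ite_mem_eq F, ← Finset.prod_ite_mem_eq (B \ F),
    ← Finset.prod_ite_mem_eq (L1 ∪ L2), ← Finset.prod_mul_distrib, ← Finset.prod_mul_distrib]
  refine Finset.prod_le_prod' fun l _ => ?_
  have hG : ∀ W : Submodule Λ G, Nat.card W ≤ Nat.card G := fun W =>
    Nat.card_le_card_of_injective _ Subtype.val_injective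
  have hp : ∀ W : Submodule Λ G, 1 ≤ Nat.card W := fun W => Nat.card_pos
  have hb : Nat.card (⊥ : Submodule Λ G) = 1 := Nat.card_unique
  by_cases hL : l ∈ L1 ∪ L2
  · have e : U l = ⊥ := if_neg fun h => h.2 hL
    rw [e, hb, if_pos hL, one_mul]
    by_cases hf : l ∈ F
    · rw [if_pos hf, if_neg (by simp [hf]), mul_one]; exact hG _
    · rw [if_neg hf, one_mul]
      split_ifs
      · exact hG _
      · exact Nat.card_pos
  · rw [if_neg hL, mul_one]
    by_cases hf : l ∈ F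
    · have e : U l = sp Λ x L2 := by simp only [U, if_pos (And.intro (hF hf) hL), if_pos hf]
      rw [e, if_pos hf, if_neg (by simp [hf]), mul_one]
    · rw [if_neg hf, one_mul]
      by_cases hB : l ∈ B
      · have e : U l = sp Λ x L1 := by simp only [U, if_pos (And.intro hB hL), if_neg hf]
        rw [e, if_pos (mem_sdiff.mpr ⟨hB, hf⟩)]
      · rw [if_neg (by simp [hB])]
        exact hp _

end CR

open CR in
theorem rowCR : OfCR := by
  intro hA hQ Λ ι G _ _ _ _ _ _ _ st B F γ x v hst hF hG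
  obtain ⟨L1, h1, c1, e1⟩ := (hQ.few Λ G ι γ hG).2.2 x F
  obtain ⟨L2, h2, c2, e2⟩ := (hQ.few Λ G ι γ hG).2.2 x B
  have h3 := card_ge st hst B F L1 L2 x hF h1 h2
  rw [e1, e2, hG] at h3
  have h4 : (2 ^ γ) ^ (L1 ∪ L2).card ≤ 2 ^ (2 * γ * γ) := by
    rw [← pow_mul]
    refine Nat.pow_le_pow_right (by norm_num) ?_
    have := card_union_le L1 L2
    nlinarith
  have h5 := h3.trans (Nat.mul_le_mul_left _ h4)
  have h6 : (fun H : Matrix ι ι Λ => ind (∀ l ∈ B, ap H x l = v l)) =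
      fun H => ind (ph B x H = fun l => if l ∈ B then v l else 0) := by
    funext H
    congr 1
    refine propext ⟨fun h => funext fun l => ?_, fun h l hl => ?_⟩
    · rw [ph_apply]
      split_ifs with hl
      · exact h l hl
      · rfl
    · have h7 := congrFun h l
      rwa [ph_apply, if_pos hl, if_pos hl] at h7
  have : Finite (Matrix ι ι Λ) := inferInstanceAs (Finite (ι → ι → Λ))
  rw [h6, hA.fib]
  have p1 : (0 : ℝ) < Nat.card ((Hs st B F).map (ph B x)) := by exact_mod_cast Nat.card_pos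
  have p2 : (0 : ℝ) < Nat.card (sp Λ x B) := by exact_mod_cast Nat.card_pos
  have p3 : (0 : ℝ) < Nat.card (sp Λ x F) := by exact_mod_cast Nat.card_pos
  rw [div_le_div_iff₀ p1 (by positivity)]
  have h8 : ((Nat.card (sp Λ x B) : ℝ) ^ F.card * (Nat.card (sp Λ x F) : ℝ) ^ (B \ F).card) ≤
      2 ^ (2 * γ * γ) * Nat.card ((Hs st B F).map (ph B x)) := by
    rw [mul_comm (2 ^ _ : ℝ)]
    exact_mod_cast h5
  refine le_trans (mul_le_of_le_one_left (by positivity) ?_) h8
  unfold ind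
  split_ifs <;> norm_num

end Pool.Agent.MP_1246c0_nt.H12
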