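import Pool.Agent.MP_1246c0_nt.H25.SpecR
import Pool.Agent.MP_1246c0_nt.H50.CH

/-! The number of short chains, with the pencil sum over a set `O`. -/

namespace Pool.Agent.MP_1246c0_nt.H25

open Polynomial Finset Matrix
open Pool.Agent.MP_1246c0_nt.H12 Pool.Agent.MP_1246c0_nt.H12.CH

namespace CHO

variable {ι : Type} [Fintype ι] [DecidableEq ι] {k : ℕ}

omit [Fintype ι] in
theorem pto_add (P O : Finset ι) (w w' : ι → F2) :
    pto P O (w + w') = pto P O w + pto P O w' := by
  funext l
  simp only [pto, Pi.add_apply, sum_add_distrib]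
  split_ifs <;> ring

omit [Fintype ι] in
theorem dot_pto_sum (B P O : Finset ι) (u : ι → F2) (a : V k) (y : Fin (k + 1) → ι → F2) :
    dot B u (pto P O (∑ j, a j • y j)) = ∑ j, a j * dot B u (pto P O (y j)) := by
  simp only [dot, mul_sum]
  rw [sum_comm]
  refine sum_congr rfl fun l _ => ?_
  simp only [pto, Finset.sum_apply, Pi.smul_apply, smul_eq_mul]
  split_ifs
  · rw [sum_comm, ← sum_add_distrib, mul_sum]
    exact sum_congr rfl fun j _ => by rw [← mul_sum]; ring
  · simp

theorem dpto {J B P O : Finset ι} (hB : J ⊆ B) (hP : J ⊆ P) (hO : O = ∅ ∨ J ⊆ O) {u w : ι → F2}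
    (hu : ∀ l, l ∉ J → u l = 0) (hw : ∀ l, l ∉ J → w l = 0) (h : ∑ l, u l = 0 ∨ ∑ l, w l = 0) :
    dot B u (pto P O w) = ∑ l ∈ J, u l * w l := by
  have e1 : ∑ l, u l = ∑ l ∈ J, u l := by simpa using sum_supp (subset_univ J) hu 1
  rw [dot, sum_supp hB hu, sum_congr rfl (g := fun l => u l * w l + u l * ∑ l ∈ O, w l)
    fun l hl => by simp only [pto, if_pos (hP hl), mul_add], sum_add_distrib, ← sum_mul, ← e1]
  rcases hO with rfl | hO
  · simp
  · have e2 : ∑ l, w l = ∑ l ∈ O, w l := by
      simpa using (sum_supp (subset_univ J) hw 1).trans (sum_supp hO hw 1).symm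
    rw [← e2]
    rcases h with h | h <;> simp [h]

theorem pol_pto {J B P O : Finset ι} (hB : J ⊆ B) (hP : J ⊆ P) (hO : O = ∅ ∨ J ⊆ O)
    (i j : Fin (k + 1)) :
    Pol J (fun x => dot B (sw x i) (pto P O (sw x j))) (mon i j) := by
  refine Pol.bil (fun x x' => dot B (sw x i) (pto P O (sw x' j)))
    (fun _ _ _ => by simp only [sw_add, Pi.add_apply, dot_addl])
    (fun _ _ _ => by simp only [sw_add, Pi.add_apply, pto_add, dot_addr]) fun x x' a b c => ?_
  simp only [dpto hB hP hO (sw_supp a i) (sw_supp b j) (Or.inl (sw_sum c i)),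
    dpto hB hP hO (sw_supp b i) (sw_supp a j) (Or.inr (sw_sum c j)), mon_apply, ← sum_add_distrib]
  exact sum_congr rfl fun l _ => by simp only [sw]; ring

variable (S : Matrix ι ι F2) (e : ι → F2) (B P O : Finset ι) (I : Finset (Fin (k + 1)))
  (a : V k) (ℓ : Fin (k + 1) → (Fin (k + 1) → ι → F2) →+ F2)

/-- the conditions -/
def qqo : Ix B I → (ι → V k) → F2
  | .inl j, x => dot univ e (sw x j)
  | .inr (.inl p), x => vvo S P O (sw x) p.1 p.2
  | .inr (.inr (.inl p)), x => dot B (sw x p.1.1.castSucc) (vvo S P O (sw x) p.1.2) +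
      dot B (sw x p.1.2.castSucc) (vvo S P O (sw x) p.1.1)
  | .inr (.inr (.inr i)), x => dot B (sw x i) (pto P O (∑ j, a j • sw x j)) + ℓ i (sw x)

theorem vvo_add (x x' : ι → V k) (j : Fin k) (l : ι) :
    vvo S P O (sw (x + x')) j l = vvo S P O (sw x) j l + vvo S P O (sw x') j l := by
  simp only [vvo, sw_add, Pi.add_apply, pto_add, mulVec_add, Pi.sub_apply]
  ring

theorem pol_qqo {J : Finset ι} {ε : F2} (hB : J ⊆ B) (hP : J ⊆ P) (hO : O = ∅ ∨ J ⊆ O)
    (hs : Sym i2 i2 S e B)
    (he : ∀ l ∈ J, e l = ε) (t : Ix B I) : Pol J (qqo S e B P O I a ℓ t) (pp B I a ε t) := by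
  rcases t with j | p | p | i
  · exact Pol.lin fun x x' => dot_addr _ _ _ _
  · exact Pol.lin fun x x' => vvo_add S P O x x' _ _
  · convert ((pol_pto hB hP hO p.1.1.castSucc p.1.2.succ).add
      (pol_pto hB hP hO p.1.2.castSucc p.1.1.succ)).add
        (pol_S hB hs he p.1.1.castSucc p.1.2.castSucc) using 2
    · simp only [qqo, vvo, dot_subr]
      ring
    · rfl
  · convert (Pol.sum univ fun j _ => (pol_pto hB hP hO i j).smul (a j)).add
      (Pol.lin (Q := fun x => ℓ i (sw x)) fun x x' => map_add _ _ _) using 2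
    · simp only [qqo, dot_pto_sum]
    · rfl

variable {B I a}

theorem lin_zeroO {J : Finset ι} {m z : ℕ} (ok : Ok i2 i2 S e B P J false m z) (hO : O ⊆ P)
    {μ : Ix B I → F2}
    (h : ∀ x : ι → V k, (∀ l ∈ P, x l = 0) → ∑ j, μ (.inl j) * dot univ e (sw x j) +
      ∑ p, μ (.inr (.inl p)) * vvo S P O (sw x) p.1 p.2 = 0) :
    (∀ j, μ (.inl j) = 0) ∧ ∀ p, μ (.inr (.inl p)) = 0 := by
  have key : ∀ (j : Fin (k + 1)) (l' : ι), l' ∉ P → μ (.inl j) * e l' +
      ∑ p : Fin k × {l // l ∈ Bᶜ}, (if p.1.castSucc = j then μ (.inr (.inl p)) * S p.2 l' else 0)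
        = 0 := by
    intro j l' hl'
    have h1 : ∀ i, sw (Pi.single l' (Pi.single j 1) : ι → V k) i =
        if i = j then Pi.single l' 1 else 0 := by
      intro i
      funext l
      by_cases c : l = l' <;> by_cases c' : i = j <;> simp [sw, c, c']
    have h2 : ∀ i, pto P O (sw (Pi.single l' (Pi.single j 1) : ι → V k) i) = 0 := by
      intro i
      have : ∀ l ∈ P, sw (Pi.single l' (Pi.single j 1) : ι → V k) i l = 0 := fun l hl => by
        have : l ≠ l' := fun c => hl' (c ▸ hl)
        simp [sw, this]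
      funext l
      simp only [pto, sum_eq_zero fun l hl => this l (hO hl), add_zero, Pi.zero_apply]
      split_ifs with c
      exacts [this l c, rfl]
    have := h (Pi.single l' (Pi.single j 1)) fun l hl => by
      have : l ≠ l' := fun c => hl' (c ▸ hl)
      simp [this]
    simp only [vvo, h2, zero_sub, Pi.neg_apply, CharTwo.neg_eq] at this
    simp only [h1] at this
    refine Eq.trans ?_ this
    congr 1
    · rw [sum_eq_single j (fun i _ hi => by simp [hi, dot]) (by simp)]
      simp [dot, Pi.single_apply]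
    · exact sum_congr rfl fun p _ => by split_ifs <;> simp
  have k2 : ∀ j : Fin k, μ (.inl j.castSucc) = 0 ∧ ∀ l, μ (.inr (.inl (j, l))) = 0 := by
    intro j
    obtain ⟨r1, r2⟩ := ok.row (fun l => if h : l ∈ Bᶜ then μ (.inr (.inl (j, ⟨l, h⟩))) else 0)
      (μ (.inl j.castSucc)) (fun l hl => dif_neg (by simpa using hl)) fun l' _ hl' => by
        refine Eq.trans ?_ (key j.castSucc l' hl')
        rw [add_comm, Fintype.sum_prod_type, sum_eq_single j]
        · congr 1
          simp only [RingHom.id_apply, if_true]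
          rw [← sum_subset (subset_univ Bᶜ) fun l _ hl => by rw [dif_neg hl, zero_mul],
            ← sum_coe_sort]
          exact sum_congr rfl fun l _ => by rw [dif_pos l.2]
        · intro i _ hi
          simp [hi]
        · simp
    exact ⟨r2, fun l => by simpa [l.2] using congrFun r1 l⟩
  refine ⟨fun j => ?_, fun p => (k2 p.1).2 p.2⟩
  refine (ok.row 0 (μ (.inl j)) (fun _ _ => rfl) fun l' _ hl' => ?_).2
  have := key j l' hl'
  simpa [(k2 _).2] using this

end CHO

open CHO in
theorem rowCHO : OfCHO := by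
  intro hq ι _ _ S e B P O J m z k I a i0 ℓ ok oa hm h0 ha
  set c := k + 1 + Bᶜ.card * k + k * (k - 1) / 2 + I.card with hc
  let Q : (Ix B I → F2) →+ (ι → V k) → F2 :=
    AddMonoidHom.mk' (fun μ x => ∑ t, μ t * qqo S e B P O I a ℓ t x) fun μ μ' => by
      funext x
      simp only [Pi.add_apply, add_mul, sum_add_distrib]
  have hV : Nat.card (V k) = 2 ^ (k + 1) := by simp
  have hA : Nat.card (ι → V k) = 2 ^ ((k + 1) * Fintype.card ι) := by
    rw [Nat.card_fun, hV, pow_mul, Nat.card_eq_fintype_card]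
  have hC : Nat.card (Ix B I → F2) = 2 ^ c := by
    rw [Nat.card_fun, Nat.card_zmod, Nat.card_eq_fintype_card, card_Ix]
  have hcm : k + 1 + 2 * c ≤ m := by
    have h1 : I.card ≤ k + 1 := by simpa using card_le_univ I
    have h2 : Bᶜ.card * k ≤ z * k := Nat.mul_le_mul_right _ ok.sml
    have h3 : k * (k - 1) / 2 ≤ k * k :=
      (Nat.div_le_self _ _).trans (Nat.mul_le_mul_left _ (Nat.sub_le _ _))
    nlinarith
  have key := hq.qc (ι → V k) (Ix B I → F2) Q (1 / 2 ^ c) (by positivity) fun μ hμ => by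
    by_cases hπ : ∃ ε, ∑ t, μ t • pp B I a ε t ≠ 0
    · obtain ⟨ε, hε⟩ := hπ
      have hp : Pol (J.filter fun l => i2 (e l) = ε) (Q μ) (∑ t, μ t • pp B I a ε t) :=
        Pol.sum univ fun t _ => (pol_qqo S e B P O I a ℓ ((filter_subset _ _).trans ok.sub)
          (fun l hl => (ok.typ l (mem_filter.1 hl).1).2 rfl)
          (oa.all.imp id fun h l hl => h (mem_inter.2 ⟨(ok.typ l (mem_filter.1 hl).1).2 rfl,
            ok.sub (mem_filter.1 hl).1⟩)) ok.sym
          (fun l hl => (mem_filter.1 hl).2) t).smul (μ t)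
      refine abs_le_of_sq_le_sq ((hp.bd hq hε).trans ?_) (by positivity)
      have h1 : (2 : ℝ) ^ (k + 1 + 2 * c) ≤ 2 ^ (J.filter fun l => i2 (e l) = ε).card :=
        pow_le_pow_right₀ one_le_two (hcm.trans (ok.cnt ε))
      rw [hV]
      refine (div_le_div_of_nonneg_left (by positivity) (by positivity) h1).trans (le_of_eq ?_)
      push_cast
      field_simp
      ring
    · push Not at hπ
      obtain ⟨z1, z2⟩ := quad_zero h0 ha hπ
      have hQ : ∀ x, Q μ x = ∑ j, μ (.inl j) * dot univ e (sw x j) +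
          ∑ p, μ (.inr (.inl p)) * vvo S P O (sw x) p.1 p.2 := fun x => by
        change ∑ t, μ t * qqo S e B P O I a ℓ t x = _
        simp only [Fintype.sum_sum_type, z1, z2, zero_mul, sum_const_zero, add_zero, qqo]
      obtain ⟨v, hv⟩ : ∃ v, Q μ v ≠ 0 := by
        by_contra hn
        push Not at hn
        obtain ⟨z3, z4⟩ := lin_zeroO S e P O ok oa.sub (μ := μ) fun x _ => by rw [← hQ, hn]
        exact hμ (funext fun t => by rcases t with j | p | p | i <;> simp [z1, z2, z3, z4])
      have hv1 : ∀ t : F2, t ≠ 0 → t = 1 := by decide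
      rw [hq.lin (ι → V k) (Q μ) v fun x => by
        rw [← hv1 _ hv]
        simp only [hQ, vvo_add]
        simp only [sw_add, Pi.add_apply, dot_addr, mul_add, sum_add_distrib]
        ring, abs_zero]
      positivity
  have hle : Nat.card {y : Fin (k + 1) → ι → F2 // Cno S e B P O y ∧
      ∀ i ∈ I, dot B (y i) (pto P O (∑ j, a j • y j)) = ℓ i y} ≤
      Nat.card {x // ∀ μ, Q μ x = 0} := by
    refine Nat.card_le_card_of_injective (fun y => ⟨fun l j => y.1 j l, fun μ => ?_⟩)
      fun y y' h => Subtype.ext (funext fun j => funext fun l =>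
        congrFun (congrFun (congrArg Subtype.val h) l) j)
    obtain ⟨y, ⟨c1, c2, c3⟩, c4⟩ := y
    refine sum_eq_zero fun t _ => mul_eq_zero_of_right _ ?_
    rcases t with j | p | p | i
    · exact c1 j
    · exact c2 p.1 p.2 (mem_compl.1 p.2.2)
    · exact (congrArg (· + _) (c3 p.1.1 p.1.2)).trans (CharTwo.add_self_eq_zero _)
    · exact (congrArg (· + _) (c4 i i.2)).trans (CharTwo.add_self_eq_zero _)
  rw [hA, hC] at key
  refine (Nat.mul_le_mul_right _ hle).trans ?_
  have k2 := (abs_le.1 key).2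
  push_cast at k2
  have k3 : (Nat.card {x // ∀ μ, Q μ x = 0} : ℝ) * 2 ^ c ≤ 2 * 2 ^ ((k + 1) * Fintype.card ι) := by
    rw [← le_div_iff₀ (by positivity)]
    refine (sub_le_iff_le_add.1 k2).trans (le_of_eq ?_)
    ring
  exact_mod_cast k3

end Pool.Agent.MP_1246c0_nt.H25
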